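import Pool.Agent.H63.CY.Defs

/-!
# The transfer graph on binary words: free positions of a local structure

Positions are given by lags: at time `t` the lag `k` is the position `t - k`.
-/

set_option autoImplicit false

open Finset

noncomputable section

namespace Pool.Agent.H85.TM

open Pool.Agent.H63.CY

/-- tops of the position `t + 1` -/
def aD {d : ℕ} (n : ℕ) (D : ZMod d → ℕ → Prop) (t : ZMod d) (k : ℕ) : Prop := k < n ∧ D (t - k) (k + 1)

/-- free positions of the window `t - n + 1, …, t` -/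
def wD {d : ℕ} (n : ℕ) (D : ZMod d → ℕ → Prop) (t : ZMod d) (k : ℕ) : Prop :=
  k < n ∧ ∀ l m : ℕ, l ≤ k → l + m < n → D (t - (l + m : ℕ)) m → l < k ∧ D (t - k) (k - l)

/-- the extended word -/
def X (W A : ℕ → Prop) : ℕ → Prop
  | 0 => ∀ k, ¬ A k
  | k + 1 => ((∀ i, ¬ A i) ∧ W k) ∨ A k

variable {n d : ℕ} {D : ZMod d → ℕ → Prop}

theorem LS_pos (hD : D ∈ LS n d) {i : ZMod d} {m : ℕ} (h : D i m) : 1 ≤ m ∧ m ≤ n := hD.1 i m h

theorem LS_a (hD : D ∈ LS n d) {i j : ZMod d} {a c : ℕ} (h1 : D i a) (h2 : D j c) (hj : j = i + a) (h : a + c ≤ n) : False := by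
  subst hj
  exact (hD.2 i a c (LS_pos hD h1).1 (LS_pos hD h2).1 h).1 ⟨h1, h2⟩

theorem LS_b (hD : D ∈ LS n d) {i j : ZMod d} {a c e : ℕ} (h1 : D i e) (he : e = a + c) (ha : 1 ≤ a) (hc : 1 ≤ c) (hj : j = i + a) :
    D i a ∨ D j c := by
  subst hj he
  exact (hD.2 i a c ha hc (LS_pos hD h1).2).2 h1

theorem a_w (hD : D ∈ LS n d) {t : ZMod d} {k : ℕ} (h : aD n D t k) : wD n D t k := by
  refine ⟨h.1, fun l m hl hm hu => ?_⟩
  have hm1 := (LS_pos hD hu).1
  rcases Nat.lt_or_ge l k with hlk | hlk
  · refine ⟨hlk, ?_⟩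
    rcases LS_b hD (j := t - l) (a := k - l) (c := l + 1) h.2 (by omega) (by omega) (by omega) (by push_cast [Nat.cast_sub hl]; ring) with h1 | h1
    · exact h1
    · exact (LS_a hD hu h1 (by push_cast; ring) (by omega)).elim
  · obtain rfl : l = k := by omega
    exact (LS_a hD hu h.2 (by push_cast; ring) (by omega)).elim

theorem a_init (hD : D ∈ LS n d) {t : ZMod d} {k l : ℕ} (h : aD n D t k) (hl : l < k) (hw : wD n D t l) : aD n D t l := by
  refine ⟨hw.1, ?_⟩
  rcases LS_b hD (j := t - l) (a := k - l) (c := l + 1) h.2 (by omega) (by omega) (by omega) (by push_cast [Nat.cast_sub hl.le]; ring) with h1 | h1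
  · have h2 := h.1
    have h3 := hw.2 l (k - l) le_rfl (by omega) (by rw [show l + (k - l) = k by omega]; exact h1)
    omega
  · exact h1

/-- free in the extended window (lags `0, …, n` at the time `s`) -/
def FE (n : ℕ) (D : ZMod d → ℕ → Prop) (s : ZMod d) (k : ℕ) : Prop :=
  k ≤ n ∧ ∀ l m : ℕ, l ≤ k → l + m ≤ n → D (s - (l + m : ℕ)) m → l < k ∧ D (s - k) (k - l)

theorem X_FE (hD : D ∈ LS n d) {t : ZMod d} {k : ℕ} (hk : k ≤ n) : X (wD n D t) (aD n D t) k ↔ FE n D (t + 1) k := by
  rcases k with _ | k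
  · show (∀ k, ¬ aD n D t k) ↔ _
    constructor
    · intro h
      refine ⟨hk, fun l m hl hm hu => ?_⟩
      obtain rfl : l = 0 := by omega
      have hm1 := (LS_pos hD hu).1
      exfalso
      refine h (m - 1) ⟨by omega, ?_⟩
      rw [show m - 1 + 1 = m by omega, show t - ((m - 1 : ℕ) : ZMod d) = t + 1 - ((0 + m : ℕ) : ZMod d) by
        push_cast [Nat.cast_sub hm1]; ring]
      exact hu
    · intro h k hk
      have h1 := h.2 0 (k + 1) le_rfl (by have := hk.1; omega) (by
        rw [show t + 1 - ((0 + (k + 1) : ℕ) : ZMod d) = t - k by push_cast; ring]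
        exact hk.2)
      omega
  · show (((∀ i, ¬ aD n D t i) ∧ wD n D t k) ∨ aD n D t k) ↔ _
    have key : aD n D t k → FE n D (t + 1) (k + 1) := by
      intro h
      refine ⟨hk, fun l m hl hm hu => ?_⟩
      rcases l with _ | l
      · refine ⟨by omega, ?_⟩
        rw [show t + 1 - ((k + 1 : ℕ) : ZMod d) = t - k by push_cast; ring, Nat.sub_zero]
        exact h.2
      · have h1 := (a_w hD h).2 l m (by omega) (by omega) (by
          rw [show t - ((l + m : ℕ) : ZMod d) = t + 1 - ((l + 1 + m : ℕ) : ZMod d) by push_cast; ring]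
          exact hu)
        refine ⟨by omega, ?_⟩
        rw [show t + 1 - ((k + 1 : ℕ) : ZMod d) = t - k by push_cast; ring, show k + 1 - (l + 1) = k - l by omega]
        exact h1.2
    constructor
    · rintro (⟨h0, h⟩ | h)
      · refine ⟨hk, fun l m hl hm hu => ?_⟩
        have hm1 := (LS_pos hD hu).1
        rcases l with _ | l
        · exfalso
          refine h0 (m - 1) ⟨by omega, ?_⟩
          rw [show m - 1 + 1 = m by omega, show t - ((m - 1 : ℕ) : ZMod d) = t + 1 - ((0 + m : ℕ) : ZMod d) by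
            push_cast [Nat.cast_sub hm1]; ring]
          exact hu
        · have h1 := h.2 l m (by omega) (by omega) (by
            rw [show t - ((l + m : ℕ) : ZMod d) = t + 1 - ((l + 1 + m : ℕ) : ZMod d) by push_cast; ring]
            exact hu)
          refine ⟨by omega, ?_⟩
          rw [show t + 1 - ((k + 1 : ℕ) : ZMod d) = t - k by push_cast; ring, show k + 1 - (l + 1) = k - l by omega]
          exact h1.2
      · exact key h
    · intro h
      by_cases h0 : ∀ i, ¬ aD n D t i
      · refine Or.inl ⟨h0, by omega, fun l m hl hm hu => ?_⟩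
        have h1 := h.2 (l + 1) m (by omega) (by omega) (by
          rw [show t + 1 - ((l + 1 + m : ℕ) : ZMod d) = t - ((l + m : ℕ) : ZMod d) by push_cast; ring]
          exact hu)
        refine ⟨by omega, ?_⟩
        have h2 := h1.2
        rw [show t + 1 - ((k + 1 : ℕ) : ZMod d) = t - k by push_cast; ring, show k + 1 - (l + 1) = k - l by omega] at h2
        exact h2
      · push Not at h0
        obtain ⟨k1, hk1⟩ := h0
        right
        have h1 := h.2 0 (k1 + 1) (by omega) (by have := hk1.1; omega) (by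
          rw [show t + 1 - ((0 + (k1 + 1) : ℕ) : ZMod d) = t - k1 by push_cast; ring]
          exact hk1.2)
        have h2 := h1.2
        rw [show t + 1 - ((k + 1 : ℕ) : ZMod d) = t - k by push_cast; ring, Nat.sub_zero] at h2
        exact ⟨by omega, h2⟩

theorem FE_w {s : ZMod d} {k : ℕ} (hk : k < n) (h : FE n D s k) : wD n D s k :=
  ⟨hk, fun l m hl hm hu => h.2 l m hl hm.le hu⟩

theorem w_FE (hD : D ∈ LS n d) {s : ZMod d} {k l0 k0 : ℕ} (h0 : l0 < k0) (hk0 : k0 < n) (hF : FE n D s k0) (hN : ¬ FE n D s l0)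
    (hw : wD n D s k) : FE n D s k := by
  obtain ⟨l1, m1, hl1, hm1, hu1, hn1⟩ : ∃ l m : ℕ, l ≤ l0 ∧ l + m ≤ n ∧ D (s - (l + m : ℕ)) m ∧ ¬ (l < l0 ∧ D (s - l0) (l0 - l)) := by
    by_contra hc
    push Not at hc
    refine hN ⟨by omega, fun l m hl hm hu => ?_⟩
    by_contra hc2
    exact hc2 (by
      have := hc l m hl hm hu
      tauto)
  have h1 := hF.2 l1 m1 (by omega) hm1 hu1
  refine ⟨by have := hw.1; omega, fun l m hl hm hu => ?_⟩
  rcases Nat.lt_or_ge (l + m) n with h2 | h2
  · exact hw.2 l m hl h2 hu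
  · rcases Nat.lt_or_ge k0 l with h3 | h3
    · have h4 := hw.2 l1 (k0 - l1) (by omega) (by omega) (by
        rw [show l1 + (k0 - l1) = k0 by omega]
        exact h1.2)
      rcases Nat.lt_or_ge l k with h5 | h5
      · refine ⟨h5, ?_⟩
        rcases LS_b hD (j := s - l) (a := k - l) (c := l - l1) h4.2 (by omega) (by omega) (by omega)
          (by push_cast [Nat.cast_sub hl]; ring) with h6 | h6
        · exact h6
        · exact (LS_a hD hu h6 (by push_cast; ring) (by omega)).elim
      · obtain rfl : l = k := by omega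
        exact (LS_a hD hu h4.2 (by push_cast; ring) (by omega)).elim
    · have h4 := hF.2 l m h3 hm hu
      exact hw.2 l (k0 - l) hl (by omega) (by
        rw [show l + (k0 - l) = k0 by omega]
        exact h4.2)

theorem all_w (hD : D ∈ LS n d) {s : ZMod d} (hS : ∀ l k, l < k → k < n → FE n D s k → FE n D s l) {k : ℕ} (hk : k < n) :
    wD n D s k := by
  classical
  refine ⟨hk, fun l m hl hm hu => ?_⟩
  exfalso
  have hex : ∃ l m : ℕ, l + m ≤ n ∧ D (s - (l + m : ℕ)) m := ⟨l, m, hm.le, hu⟩
  obtain ⟨m0, hm0, hu0⟩ := Nat.find_spec hex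
  set th := Nat.find hex with hth
  have hmin : ∀ l' m' : ℕ, l' + m' ≤ n → D (s - (l' + m' : ℕ)) m' → th ≤ l' := fun l' m' h1 h2 =>
    Nat.find_min' hex ⟨m', h1, h2⟩
  have htop : ∀ m1 : ℕ, th + m1 ≤ n → D (s - (th + m1 : ℕ)) m1 → FE n D s (th + m1) := by
    intro m1 h1 h2
    have hm1 := (LS_pos hD h2).1
    refine ⟨h1, fun l' m' hl' hm' hu' => ?_⟩
    have h3 := hmin l' m' hm' hu'
    have hm'1 := (LS_pos hD hu').1
    rcases Nat.lt_or_ge l' (th + m1) with h4 | h4
    · refine ⟨h4, ?_⟩
      rcases Nat.lt_or_ge th l' with h5 | h5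
      · rcases LS_b hD (j := s - l') (a := th + m1 - l') (c := l' - th) h2 (by omega) (by omega) (by omega)
          (by push_cast [Nat.cast_sub h4.le]; ring) with h6 | h6
        · exact h6
        · exact (LS_a hD hu' h6 (by push_cast; ring) (by omega)).elim
      · have e1 : l' = th := by omega
        rw [e1, show th + m1 - th = m1 by omega]
        exact h2
    · obtain rfl : l' = th + m1 := by omega
      exact (LS_a hD hu' h2 (by push_cast; ring) (by omega)).elim
  have hno : ∀ m1 : ℕ, th + m1 < n → ¬ D (s - (th + m1 : ℕ)) m1 := by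
    intro m1 h1 h2
    have hm1 := (LS_pos hD h2).1
    have h3 := hS th (th + m1) (by omega) h1 (htop m1 h1.le h2)
    have h4 := h3.2 th m1 le_rfl h1.le h2
    omega
  have e0 : th + m0 = n := by
    by_contra h
    exact hno m0 (by omega) hu0
  have h1 := hmin l m hm.le hu
  have hm1 := (LS_pos hD hu).1
  rcases Nat.lt_or_ge th l with h2 | h2
  · rcases LS_b hD (j := s - (l + m : ℕ)) (a := n - (l + m)) (c := l + m - th) hu0 (by omega) (by omega) (by omega)
      (by rw [e0]; push_cast [Nat.cast_sub hm.le]; ring) with h3 | h3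
    · exact LS_a hD h3 hu (by rw [e0]; push_cast [Nat.cast_sub hm.le]; ring) (by omega)
    · refine hno (l + m - th) (by omega) ?_
      rw [show th + (l + m - th) = l + m by omega]
      exact h3
  · have e1 : l = th := by omega
    rw [e1] at hm hu
    exact hno m hm hu

end Pool.Agent.H85.TM
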