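import Pool.Agent.H85.TM.A

/-!
# Runs of the transfer graph: definitions for the converse
-/

set_option autoImplicit false

open Finset

noncomputable section

namespace Pool.Agent.H85.TM

open Pool.Agent.H63.CY

/-- the extended word is not sorted -/
def NS (n : ℕ) (Y : ℕ → Prop) : Prop := ∃ l k : ℕ, l < k ∧ k < n ∧ Y k ∧ ¬ Y l

/-- closed walk of the transfer graph (words `W t`, marks `A t`) -/
structure Run (n : ℕ) {d : ℕ} (W A : ZMod d → ℕ → Prop) : Prop where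
  supW : ∀ t k, W t k → k < n
  supA : ∀ t k, A t k → k < n
  ini : ∀ t k, A t k → W t k ∧ ∀ l, l < k → W t l → A t l
  hN : ∀ t, NS n (X (W t) (A t)) → ∀ k, k < n → (W (t + 1) k ↔ X (W t) (A t) k)
  hS : ∀ t, ¬ NS n (X (W t) (A t)) → ∀ k, k < n → W (t + 1) k

/-- the structure of a run -/
def DA (n : ℕ) {d : ℕ} (A : ZMod d → ℕ → Prop) (i : ZMod d) (m : ℕ) : Prop := 1 ≤ m ∧ m ≤ n ∧ A (i + ((m - 1 : ℕ) : ZMod d)) (m - 1)

variable {n d : ℕ}

/-- a local structure gives a run -/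
theorem run_of_LS {D : ZMod d → ℕ → Prop} (hD : D ∈ LS n d) : Run n (wD n D) (aD n D) := by
  refine ⟨fun t k h => h.1, fun t k h => h.1, fun t k h => ⟨a_w hD h, fun l hl hw => a_init hD h hl hw⟩, ?_, ?_⟩
  · rintro t ⟨l0, k0, h0, hk0, h1, h2⟩ k hk
    rw [X_FE hD hk.le]
    rw [X_FE hD hk0.le] at h1
    rw [X_FE hD (by omega)] at h2
    exact ⟨fun h => w_FE hD h0 hk0 h1 h2 h, fun h => FE_w hk h⟩
  · intro t hns k hk
    refine all_w hD ?_ hk
    intro l k' hl hk' hF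
    by_contra hc
    exact hns ⟨l, k', hl, hk', (X_FE hD hk'.le).2 hF, fun h => hc ((X_FE hD (by omega)).1 h)⟩

theorem aD_DA {W A : ZMod d → ℕ → Prop} (h : Run n W A) (t : ZMod d) (k : ℕ) : aD n (DA n A) t k ↔ A t k := by
  constructor
  · rintro ⟨h1, h2, h3, h4⟩
    rw [show t - (k : ZMod d) + ((k + 1 - 1 : ℕ) : ZMod d) = t by rw [Nat.add_sub_cancel]; ring, Nat.add_sub_cancel] at h4
    exact h4
  · intro h1
    have h2 := h.supA t k h1
    refine ⟨h2, by omega, by omega, ?_⟩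
    rw [show t - (k : ZMod d) + ((k + 1 - 1 : ℕ) : ZMod d) = t by rw [Nat.add_sub_cancel]; ring, Nat.add_sub_cancel]
    exact h1

end Pool.Agent.H85.TM
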