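import Pool.Agent.H85.TM.B0

/-!
# Converse, part 1: (I) and condition (a)

(I) If `A t k` then for all `r` with `k + 1 + r < n`, writing `s = t + 1 + r`: `¬ W s r`, and there are `q < p ≤ k + 1 + r` with
`W s p` and `¬ W s q`. Induction on `r`.
* `r = 0`: `A t` is nonempty, so `X (W t) (A t) 0` is false and `X (W t) (A t) (k + 1)` is true (definition of `X`); so the word
  is `NS` (lags `0 < k + 1 < n`) and `hN` gives `W (t + 1) j ↔ X j` for `j < n`; pair `(q, p) = (0, k + 1)`.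
* `r → r + 1`: `s = t + 1 + r`, `k + 1 + (r + 1) < n`. Case `A s` empty: `X (j + 1) ↔ W s j`, so `X (p + 1)`, `¬ X (q + 1)`, the word
  is `NS`, `hN`: `W (s + 1) (r + 1) ↔ X (r + 1) ↔ W s r`, false; pair `(q + 1, p + 1)`. Case `A s k1`: there is `p' ≤ p` with
  `A s p'` (`k1` if `k1 ≤ p`, else `p` by `ini`), `X 0` is false, `X (p' + 1)` true, so `NS`; `X (r + 1) ↔ A s r → W s r`, false; pair
  `(0, p' + 1)`.

Condition (a): `DA i a` is `A (i + (a - 1)) (a - 1)`, `DA (i + a) c` is `A (i + a + (c - 1)) (c - 1)`; apply (I) with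
`t = i + (a - 1)`, `k = a - 1`, `r = c - 1`: then `t + 1 + r = i + a + (c - 1)` and `k + 1 + r = a + c - 1 < n`, so `¬ W _ (c - 1)`,
but `ini` gives `W _ (c - 1)`.
-/

set_option autoImplicit false

open Finset

noncomputable section

namespace Pool.Agent.H85.TM

variable {n d : ℕ} {W A : ZMod d → ℕ → Prop}

theorem partI (h : Run n W A) {t : ZMod d} {k : ℕ} (hA : A t k) (r : ℕ) (hr : k + 1 + r < n) :
    ¬ W (t + 1 + (r : ℕ)) r ∧ ∃ q p : ℕ, q < p ∧ p ≤ k + 1 + r ∧ W (t + 1 + (r : ℕ)) p ∧ ¬ W (t + 1 + (r : ℕ)) q := by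
  induction r with
  | zero =>
    have e : t + 1 + ((0 : ℕ) : ZMod d) = t + 1 := by
      rw [Nat.cast_zero, add_zero]
    rw [e]
    have h0 : ¬ X (W t) (A t) 0 := fun h1 => h1 k hA
    have h1 : X (W t) (A t) (k + 1) := Or.inr hA
    have hNS : NS n (X (W t) (A t)) := ⟨0, k + 1, by omega, by omega, h1, h0⟩
    have hiff := h.hN t hNS
    have h2 : ¬ W (t + 1) 0 := fun h3 => h0 ((hiff 0 (by omega)).1 h3)
    exact ⟨h2, 0, k + 1, by omega, by omega, (hiff (k + 1) (by omega)).2 h1, h2⟩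
  | succ r ih =>
    obtain ⟨h1, q, p, hqp, hp, h2, h3⟩ := ih (by omega)
    obtain ⟨s, hs⟩ : ∃ s : ZMod d, s = t + 1 + (r : ℕ) := ⟨_, rfl⟩
    rw [← hs] at h1 h2 h3
    have e : t + 1 + ((r + 1 : ℕ) : ZMod d) = s + 1 := by
      rw [hs]
      push_cast
      ring
    rw [e]
    by_cases hE : ∀ j, ¬ A s j
    · have h4 : X (W s) (A s) (p + 1) := Or.inl ⟨hE, h2⟩
      have h5 : ∀ j, ¬ W s j → ¬ X (W s) (A s) (j + 1) := by
        rintro j hj (h6 | h6)
        · exact hj h6.2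
        · exact hE j h6
      have hNS : NS n (X (W s) (A s)) := ⟨q + 1, p + 1, by omega, by omega, h4, h5 q h3⟩
      have hiff := h.hN s hNS
      exact ⟨fun h6 => h5 r h1 ((hiff (r + 1) (by omega)).1 h6), q + 1, p + 1, by omega, by omega,
        (hiff (p + 1) (by omega)).2 h4, fun h6 => h5 q h3 ((hiff (q + 1) (by omega)).1 h6)⟩
    · have hE' := hE
      push Not at hE'
      obtain ⟨k1, hk1⟩ := hE'
      obtain ⟨p', hp', hAp⟩ : ∃ p', p' ≤ p ∧ A s p' := by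
        by_cases hk : k1 ≤ p
        · exact ⟨k1, hk, hk1⟩
        · exact ⟨p, le_rfl, (h.ini s k1 hk1).2 p (by omega) h2⟩
      have h0 : ¬ X (W s) (A s) 0 := hE
      have h4 : X (W s) (A s) (p' + 1) := Or.inr hAp
      have hNS : NS n (X (W s) (A s)) := ⟨0, p' + 1, by omega, by omega, h4, h0⟩
      have hiff := h.hN s hNS
      refine ⟨fun h6 => ?_, 0, p' + 1, by omega, by omega, (hiff (p' + 1) (by omega)).2 h4,
        fun h6 => h0 ((hiff 0 (by omega)).1 h6)⟩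
      rcases (hiff (r + 1) (by omega)).1 h6 with h7 | h7
      · exact hE h7.1
      · exact h1 (h.ini s r h7).1

theorem condA (h : Run n W A) (i : ZMod d) (a c : ℕ) (ha : 1 ≤ a) (hc : 1 ≤ c) (hac : a + c ≤ n) :
    ¬ (DA n A i a ∧ DA n A (i + (a : ℕ)) c) := by
  rintro ⟨⟨_, _, h1⟩, ⟨_, _, h2⟩⟩
  obtain ⟨a', rfl⟩ : ∃ a', a = a' + 1 := ⟨a - 1, by omega⟩
  obtain ⟨c', rfl⟩ : ∃ c', c = c' + 1 := ⟨c - 1, by omega⟩
  rw [Nat.add_sub_cancel] at h1 h2
  have h3 := (partI h h1 c' (by omega)).1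
  have e : i + ((a' + 1 : ℕ) : ZMod d) + (c' : ZMod d) = i + (a' : ZMod d) + 1 + (c' : ZMod d) := by
    push_cast
    ring
  rw [e] at h2
  exact h3 (h.ini _ _ h2).1

end Pool.Agent.H85.TM
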