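import Pool.Agent.H85.TM.B0

/-!
# Converse, part 2: (II) and condition (b)

(II) If `l < k < n`, `W t k`, `¬ W t l` then `A (t - (l + 1)) (k - l - 1)`. Induction on `l` (for all `t`, `k`). Let `s = t - 1`
(so `s + 1 = t`). The word `X (W s) (A s)` is `NS` (otherwise `hS` gives `W t l`), so `W t j ↔ X (W s) (A s) j` for `j < n` (`hN`).
* `l = 0`: `¬ X 0` says that `A s` is nonempty, so `X (k' + 1) ↔ A s k'` where `k = k' + 1`: `A (t - 1) (k - 1)`.
* `l = l' + 1`, `k = k' + 1`, `l' < k'`: if `A s` is empty, then `W s k'` and `¬ W s l'`; if `A s` is nonempty then `A s k'` and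
  `¬ A s l'`, so `W s k'` and `¬ W s l'` by `ini`. Induction for `s`: `A (s - (l' + 1)) (k' - l' - 1)`, and
  `s - (l' + 1) = t - (l + 1)`, `k' - l' - 1 = k - l - 1`.

Condition (b): `DA i (a + c)` is `A t k` with `k = a + c - 1`, `t = i + (a + c - 1)`. If `W t (c - 1)`, then `A t (c - 1)` by `ini`
(`c - 1 < k` as `a ≥ 1`), that is `DA (i + a) c`. Otherwise (`W t k` by `ini`) (II) with `l = c - 1` gives
`A (t - c) (k - c) = A (i + (a - 1)) (a - 1)`, that is `DA i a`.
-/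

set_option autoImplicit false

open Finset

noncomputable section

namespace Pool.Agent.H85.TM

variable {n d : ℕ} {W A : ZMod d → ℕ → Prop}

theorem partII (h : Run n W A) (l : ℕ) : ∀ (t : ZMod d) (k : ℕ), l < k → k < n → W t k → ¬ W t l →
    A (t - ((l + 1 : ℕ) : ZMod d)) (k - l - 1) := by
  induction l with
  | zero =>
    intro t k hlk hkn hk hl
    obtain ⟨s, hs⟩ : ∃ s : ZMod d, s = t - 1 := ⟨_, rfl⟩
    have hst : s + 1 = t := by
      rw [hs]
      ring
    have hNS : NS n (X (W s) (A s)) := by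
      by_contra hns
      have h1 := h.hS s hns 0 (by omega)
      rw [hst] at h1
      exact hl h1
    have hiff := h.hN s hNS
    rw [hst] at hiff
    obtain ⟨k', rfl⟩ : ∃ k', k = k' + 1 := ⟨k - 1, by omega⟩
    have h1 : ¬ ∀ j, ¬ A s j := fun h2 => hl ((hiff 0 (by omega)).2 h2)
    have h2 : ((∀ j, ¬ A s j) ∧ W s k') ∨ A s k' := (hiff (k' + 1) hkn).1 hk
    have h3 : A s k' := by
      rcases h2 with h2 | h2
      · exact absurd h2.1 h1
      · exact h2
    have e1 : t - ((0 + 1 : ℕ) : ZMod d) = s := by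
      rw [hs]
      push_cast
      ring
    have e2 : k' + 1 - 0 - 1 = k' := by omega
    rw [e1, e2]
    exact h3
  | succ l' ih =>
    intro t k hlk hkn hk hl
    obtain ⟨s, hs⟩ : ∃ s : ZMod d, s = t - 1 := ⟨_, rfl⟩
    have hst : s + 1 = t := by
      rw [hs]
      ring
    have hNS : NS n (X (W s) (A s)) := by
      by_contra hns
      have h1 := h.hS s hns (l' + 1) (by omega)
      rw [hst] at h1
      exact hl h1
    have hiff := h.hN s hNS
    rw [hst] at hiff
    obtain ⟨k', rfl⟩ : ∃ k', k = k' + 1 := ⟨k - 1, by omega⟩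
    have h1 : ¬ (((∀ j, ¬ A s j) ∧ W s l') ∨ A s l') :=
      fun h2 => hl ((hiff (l' + 1) (by omega)).2 h2)
    have h2 : ((∀ j, ¬ A s j) ∧ W s k') ∨ A s k' := (hiff (k' + 1) hkn).1 hk
    have h3 : W s k' ∧ ¬ W s l' := by
      rcases h2 with h2 | h2
      · exact ⟨h2.2, fun h4 => h1 (Or.inl ⟨h2.1, h4⟩)⟩
      · have h4 := h.ini s k' h2
        exact ⟨h4.1, fun h5 => h1 (Or.inr (h4.2 l' (by omega) h5))⟩
    have h4 := ih s k' (by omega) (by omega) h3.1 h3.2
    have e1 : t - ((l' + 1 + 1 : ℕ) : ZMod d) = s - ((l' + 1 : ℕ) : ZMod d) := by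
      rw [hs]
      push_cast
      ring
    have e2 : k' + 1 - (l' + 1) - 1 = k' - l' - 1 := by omega
    rw [e1, e2]
    exact h4

theorem condB (h : Run n W A) (i : ZMod d) (a c : ℕ) (ha : 1 ≤ a) (hc : 1 ≤ c) (hac : a + c ≤ n) (h1 : DA n A i (a + c)) :
    DA n A i a ∨ DA n A (i + (a : ℕ)) c := by
  obtain ⟨_, _, h2⟩ := h1
  obtain ⟨t, ht⟩ : ∃ t : ZMod d, t = i + ((a + c - 1 : ℕ) : ZMod d) := ⟨_, rfl⟩
  rw [← ht] at h2
  have h3 := h.ini t _ h2
  obtain ⟨a', rfl⟩ : ∃ a', a = a' + 1 := ⟨a - 1, by omega⟩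
  obtain ⟨c', rfl⟩ : ∃ c', c = c' + 1 := ⟨c - 1, by omega⟩
  have e0 : a' + 1 + (c' + 1) - 1 = a' + c' + 1 := by omega
  rw [e0] at h2 h3 ht
  by_cases hw : W t c'
  · right
    refine ⟨by omega, by omega, ?_⟩
    have h4 := h3.2 c' (by omega) hw
    have e1 : i + ((a' + 1 : ℕ) : ZMod d) + ((c' + 1 - 1 : ℕ) : ZMod d) = t := by
      rw [ht, Nat.add_sub_cancel]
      push_cast
      ring
    rw [e1, Nat.add_sub_cancel]
    exact h4
  · left
    refine ⟨by omega, by omega, ?_⟩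
    have h4 := partII h c' t (a' + c' + 1) (by omega) (by omega) h3.1 hw
    have e1 : t - ((c' + 1 : ℕ) : ZMod d) = i + ((a' + 1 - 1 : ℕ) : ZMod d) := by
      rw [ht, Nat.add_sub_cancel]
      push_cast
      ring
    have e2 : a' + c' + 1 - c' - 1 = a' + 1 - 1 := by omega
    rw [e1, e2] at h4
    exact h4

end Pool.Agent.H85.TM
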