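import Pool.Agent.H85.TM.B0

/-!
# Converse, part 3: after a stretch of empty marks

`partQ`: if `A (t - i - 1)` is empty for all `i < g` and `W t` is not full, then `W t j` for `j < g` (`j < n`), and
`W t j ↔ W (t - g) (j - g)` for `g ≤ j < n`. Induction on `g` (for all `t`). `g = 0`: trivial. `g → g + 1`: let `s = t - 1`. The word
`X (W s) (A s)` is `NS` (otherwise `hS`: `W t` is full), so `W t j ↔ X j` for `j < n` (`hN`). `A s` is empty (`i = 0`), so `X 0` is
true and `X (j + 1) ↔ W s j`. `W s` is not full: `NS` gives `l0 < k0 < n` with `¬ X l0`, so `l0 ≥ 1` and `¬ W s (l0 - 1)`. Apply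
the induction hypothesis to `s` (`s - i - 1 = t - (i + 1) - 1`).

`partF`: if `¬ W t k`, `k < n`, there are `z ≤ k` and `k0` with `z < k0 < n`, `A (t - z - 1) (k0 - z - 1)`, and for all `j` with
`z < j < n`: `W t j ↔ A (t - z - 1) (j - z - 1)`. Proof: let `z` be the least lag with `A (t - z - 1)` nonempty; it exists and
`z ≤ k`, otherwise `partQ` with `g = k + 1` gives `W t k`. `partQ` with `g = z`: `W t j` for `j < z`, and
`W t j ↔ W (t - z) (j - z)` for `z ≤ j < n`. The word of the time `u = t - z - 1` is `NS` (otherwise `W (t - z)` is full by `hS`, but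
`¬ W (t - z) (k - z)`), so `W (t - z) j ↔ X (W u) (A u) j` for `j < n`; `A u` is nonempty, so `X 0` is false and
`X (j + 1) ↔ A u j`. So `¬ W t z` and `W t j ↔ A u (j - z - 1)` for `z < j < n`. Finally the word of the time `t - 1` is `NS`
(otherwise `W t` full), which by `hN` gives `l0 < k0 < n` with `W t k0`, `¬ W t l0`; then `l0 ≥ z`, so `k0 > z` and
`A u (k0 - z - 1)`.
-/

set_option autoImplicit false

open Finset

noncomputable section

namespace Pool.Agent.H85.TM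

variable {n d : ℕ} {W A : ZMod d → ℕ → Prop}

theorem B3_step (h : Run n W A) {t : ZMod d} {j0 : ℕ} (hj0 : j0 < n) (hW0 : ¬ W t j0) :
    NS n (X (W (t - 1)) (A (t - 1))) ∧ ∀ j, j < n → (W t j ↔ X (W (t - 1)) (A (t - 1)) j) := by
  have hst : t - 1 + 1 = t := sub_add_cancel t 1
  have hNS : NS n (X (W (t - 1)) (A (t - 1))) := by
    by_contra hc
    have h1 := h.hS (t - 1) hc j0 hj0
    rw [hst] at h1
    exact hW0 h1
  refine ⟨hNS, fun j hj => ?_⟩
  have h1 := h.hN (t - 1) hNS j hj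
  rwa [hst] at h1

theorem partQ (h : Run n W A) (g : ℕ) : ∀ t : ZMod d, (∀ i < g, ∀ k, ¬ A (t - (i : ℕ) - 1) k) → (∃ j < n, ¬ W t j) →
    (∀ j, j < g → j < n → W t j) ∧ ∀ j, g ≤ j → j < n → (W t j ↔ W (t - (g : ℕ)) (j - g)) := by
  induction g with
  | zero =>
    intro t _ _
    refine ⟨fun j hj => absurd hj (by omega), fun j _ _ => ?_⟩
    rw [Nat.cast_zero, sub_zero, Nat.sub_zero]
  | succ g ih =>
    rintro t hA ⟨j0, hj0, hW0⟩
    obtain ⟨hNS, hX⟩ := B3_step h hj0 hW0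
    have hA0 : ∀ k, ¬ A (t - 1) k := by
      intro k
      have h1 := hA 0 (by omega) k
      rwa [Nat.cast_zero, sub_zero] at h1
    have hX0 : X (W (t - 1)) (A (t - 1)) 0 := hA0
    have hXs : ∀ j, X (W (t - 1)) (A (t - 1)) (j + 1) ↔ W (t - 1) j := by
      intro j
      constructor
      · rintro (⟨_, h1⟩ | h1)
        · exact h1
        · exact (hA0 j h1).elim
      · intro h1
        exact Or.inl ⟨hA0, h1⟩
    obtain ⟨l0, k0, hlk, hk0, h1, h2⟩ := hNS
    have hl0 : l0 ≠ 0 := by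
      rintro rfl
      exact h2 hX0
    obtain ⟨l1, rfl⟩ : ∃ l1, l0 = l1 + 1 := ⟨l0 - 1, by omega⟩
    have hWs : ¬ W (t - 1) l1 := fun hh => h2 ((hXs l1).2 hh)
    have ih' := ih (t - 1) (fun i hi k => by
      have h3 := hA (i + 1) (by omega) k
      rwa [show t - ((i + 1 : ℕ) : ZMod d) - 1 = t - 1 - ((i : ℕ) : ZMod d) - 1 by push_cast; ring] at h3) ⟨l1, by omega, hWs⟩
    refine ⟨fun j hj hjn => ?_, fun j hj hjn => ?_⟩
    · rcases j with _ | j
      · exact (hX 0 hjn).2 hX0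
      · exact (hX (j + 1) hjn).2 ((hXs j).2 (ih'.1 j (by omega) (by omega)))
    · obtain ⟨j, rfl⟩ : ∃ j', j = j' + 1 := ⟨j - 1, by omega⟩
      rw [hX _ hjn, hXs, ih'.2 j (by omega) (by omega),
        show t - 1 - ((g : ℕ) : ZMod d) = t - ((g + 1 : ℕ) : ZMod d) by push_cast; ring,
        show j + 1 - (g + 1) = j - g by omega]

theorem partF (h : Run n W A) {t : ZMod d} {k : ℕ} (hk : k < n) (hW : ¬ W t k) :
    ∃ z k0 : ℕ, z ≤ k ∧ z < k0 ∧ k0 < n ∧ A (t - (z : ℕ) - 1) (k0 - z - 1) ∧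
      ∀ j, z < j → j < n → (W t j ↔ A (t - (z : ℕ) - 1) (j - z - 1)) := by
  classical
  have hex : ∃ z : ℕ, z ≤ k ∧ ∃ k' : ℕ, A (t - (z : ℕ) - 1) k' := by
    by_contra hc
    push Not at hc
    exact hW ((partQ h (k + 1) t (fun i hi => hc i (by omega)) ⟨k, hk, hW⟩).1 k (by omega) hk)
  obtain ⟨hzk, k1, hk1⟩ := Nat.find_spec hex
  have hmin : ∀ i < Nat.find hex, ∀ k', ¬ A (t - (i : ℕ) - 1) k' := by
    intro i hi k' hA
    exact Nat.find_min hex hi ⟨by omega, k', hA⟩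
  generalize Nat.find hex = z at hzk hk1 hmin
  obtain ⟨hQ1, hQ2⟩ := partQ h z t hmin ⟨k, hk, hW⟩
  have hWz : ¬ W (t - (z : ℕ)) (k - z) := fun hh => hW ((hQ2 k hzk hk).2 hh)
  obtain ⟨_, hX⟩ := B3_step h (by omega) hWz
  have hX0 : ¬ X (W (t - (z : ℕ) - 1)) (A (t - (z : ℕ) - 1)) 0 := fun hh => hh k1 hk1
  have hXs : ∀ j, X (W (t - (z : ℕ) - 1)) (A (t - (z : ℕ) - 1)) (j + 1) ↔ A (t - (z : ℕ) - 1) j := by
    intro j
    constructor
    · rintro (⟨h1, _⟩ | h1)
      · exact (h1 k1 hk1).elim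
      · exact h1
    · intro h1
      exact Or.inr h1
  have hz0 : ¬ W t z := by
    rw [hQ2 z le_rfl (by omega), Nat.sub_self, hX 0 (by omega)]
    exact hX0
  have hfin : ∀ j, z < j → j < n → (W t j ↔ A (t - (z : ℕ) - 1) (j - z - 1)) := by
    intro j hj hjn
    rw [hQ2 j hj.le hjn, hX (j - z) (by omega), show j - z = (j - z - 1) + 1 by omega, hXs, Nat.add_sub_cancel]
  obtain ⟨⟨l0, k0, hlk, hk0, h1, h2⟩, hX'⟩ := B3_step h hk hW
  rw [← hX' k0 hk0] at h1
  rw [← hX' l0 (by omega)] at h2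
  have hl0 : z ≤ l0 := by
    by_contra hc
    exact h2 (hQ1 l0 (by omega) (by omega))
  exact ⟨z, k0, hzk, by omega, hk0, (hfin k0 (by omega) hk0).1 h1, hfin⟩

end Pool.Agent.H85.TM
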