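import Pool.Agent.H85.TM.B1
import Pool.Agent.H85.TM.B2
import Pool.Agent.H85.TM.B3

/-!
# Converse: a run of the transfer graph is a local structure
-/

set_option autoImplicit false

open Finset

noncomputable section

namespace Pool.Agent.H85.TM

open Pool.Agent.H63.CY

variable {n d : ℕ} {W A : ZMod d → ℕ → Prop}

theorem DA_mem (h : Run n W A) : DA n A ∈ LS n d := by
  refine ⟨fun i m hm => ⟨hm.1, hm.2.1⟩, fun i a c ha hc hac => ⟨condA h i a c ha hc hac, condB h i a c ha hc hac⟩⟩

theorem DA_get {A : ZMod d → ℕ → Prop} {i s : ZMod d} {m k : ℕ} (h : DA n A i m) (hk : m = k + 1) (hs : s = i + k) : A s k := by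
  subst hk hs
  have h1 := h.2.2
  rwa [Nat.add_sub_cancel] at h1

theorem DA_mk {A : ZMod d → ℕ → Prop} {i s : ZMod d} {m k : ℕ} (h : A s k) (hk : m = k + 1) (hs : s = i + k) (hn : m ≤ n) : DA n A i m := by
  subst hk hs
  refine ⟨by omega, hn, ?_⟩
  rw [Nat.add_sub_cancel]
  exact h

theorem wD_DA (h : Run n W A) (t : ZMod d) (k : ℕ) : wD n (DA n A) t k ↔ W t k := by
  constructor
  · intro hw
    by_contra hW
    have hk := hw.1
    obtain ⟨z, k0, hz, hz0, hk0, hA, hall⟩ := partF h hk hW
    have h1 := hw.2 z (k0 - z) hz (by omega) (DA_mk (k := k0 - z - 1) hA (by omega)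
      (by push_cast [Nat.cast_sub hz0.le, Nat.cast_sub (show 1 ≤ k0 - z by omega)]; ring) (by omega))
    have h2 : A (t - (z : ℕ) - 1) (k - z - 1) := DA_get h1.2 (k := k - z - 1) (by omega) (by
      push_cast [Nat.cast_sub hz, Nat.cast_sub (show 1 ≤ k - z by omega)]; ring)
    exact hW ((hall k h1.1 hk).2 h2)
  · intro hW
    have hk := h.supW t k hW
    refine ⟨hk, fun l m hl hm hu => ?_⟩
    have hm1 := hu.1
    have h1 : A (t - ((l + 1 : ℕ) : ZMod d)) (m - 1) := DA_get hu (by omega) (by push_cast [Nat.cast_sub hm1]; ring)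
    have h2 := (partI h h1 l (by omega)).1
    have e : t - ((l + 1 : ℕ) : ZMod d) + 1 + (l : ℕ) = t := by push_cast; ring
    rw [e] at h2
    have h3 : l < k := by
      rcases Nat.lt_or_ge l k with h4 | h4
      · exact h4
      · have : l = k := by omega
        rw [this] at h2
        exact (h2 hW).elim
    refine ⟨h3, ?_⟩
    have h4 := partII h l t k h3 hk hW h2
    exact DA_mk h4 (by omega) (by push_cast [Nat.cast_sub h3.le, Nat.cast_sub (show 1 ≤ k - l by omega)]; ring) (by omega)

end Pool.Agent.H85.TM
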