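import Mathlib

/-!
# Closed walks in a graph with labelled edges: the trace of the power of the transfer matrix

Proof: `d = m + 1`, so `ZMod d = Fin (m + 1)` by `rfl`. First: for all `m`, `v`, `w`, the entry `(M ^ m) v w` is the number
of the pairs of sequences, i.e. of `p : Fin m → V × L` and a walk `v = v_0, v_1, …, v_m = w` (for instance: the number of
`p : Fin (m + 1) → V × L` such that `p` is a chain with `(p 0).1 = v` and `nx (p last) = w` is `(M ^ (m + 1)) v w`), by induction on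
`m` with `pow_succ` and the equivalence `Fin.snocEquiv` (or `Fin.snoc`). Then sum over `v = w`.
-/

set_option autoImplicit false

open Finset

namespace Pool.Agent.H85.TM

/-- `p` is a chain of `m + 1` labelled edges from `v` to `w`. -/
def T_W {V L : Type} (P : V → L → Prop) (nx : V → L → V) : (m : ℕ) → V → V → (Fin (m + 1) → V × L) → Prop
  | 0, v, w, p => (p 0).1 = v ∧ P (p 0).1 (p 0).2 ∧ nx (p 0).1 (p 0).2 = w
  | m + 1, v, w, p => (p 0).1 = v ∧ P (p 0).1 (p 0).2 ∧ T_W P nx m (nx (p 0).1 (p 0).2) w (fun i => p i.succ)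

theorem T_W_iff {V L : Type} (P : V → L → Prop) (nx : V → L → V) (m : ℕ) : ∀ (v w : V) (p : Fin (m + 1) → V × L),
    T_W P nx m v w p ↔ ((p 0).1 = v ∧ (∀ i : Fin (m + 1), P (p i).1 (p i).2) ∧
      (∀ i : Fin m, nx (p i.castSucc).1 (p i.castSucc).2 = (p i.succ).1) ∧
      nx (p (Fin.last m)).1 (p (Fin.last m)).2 = w) := by
  induction m with
  | zero =>
    intro v w p
    constructor
    · rintro ⟨h1, h2, h3⟩
      refine ⟨h1, ?_, fun i => i.elim0, h3⟩
      intro i
      have hi : i = 0 := Subsingleton.elim (α := Fin 1) i 0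
      rw [hi]
      exact h2
    · rintro ⟨h1, h2, _, h3⟩
      exact ⟨h1, h2 0, h3⟩
  | succ m ih =>
    intro v w p
    constructor
    · rintro ⟨h1, h2, h3⟩
      obtain ⟨k1, k2, k3, k4⟩ := (ih _ _ _).1 h3
      refine ⟨h1, ?_, ?_, k4⟩
      · intro i
        refine Fin.cases h2 (fun j => k2 j) i
      · intro i
        refine Fin.cases k1.symm (fun j => k3 j) i
    · rintro ⟨h1, h2, h3, h4⟩
      refine ⟨h1, h2 0, (ih _ _ _).2 ⟨(h3 0).symm, fun i => h2 i.succ, fun i => h3 i.succ, h4⟩⟩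

/-- Split off the first edge. -/
def T_splitEquiv {V L : Type} (P : V → L → Prop) (nx : V → L → V) (m : ℕ) (v w : V) :
    {p : Fin (m + 2) → V × L // T_W P nx (m + 1) v w p} ≃
      (Σ u : V, {l : L // P v l ∧ nx v l = u} × {q : Fin (m + 1) → V × L // T_W P nx m u w q}) where
  toFun p := ⟨nx (p.1 0).1 (p.1 0).2, ⟨(p.1 0).2, by
      have h := p.2
      have h1 : (p.1 0).1 = v := h.1
      have h2 : P (p.1 0).1 (p.1 0).2 := h.2.1
      rw [h1] at h2
      exact ⟨h2, by rw [h1]⟩⟩, ⟨fun i => p.1 i.succ, p.2.2.2⟩⟩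
  invFun x := ⟨Fin.cons (v, x.2.1.1) x.2.2.1, by
      obtain ⟨u, ⟨l, h1, h2⟩, ⟨q, h3⟩⟩ := x
      subst h2
      exact ⟨rfl, h1, h3⟩⟩
  left_inv := by
    rintro ⟨p, h⟩
    apply Subtype.ext
    funext i
    refine Fin.cases ?_ (fun j => rfl) i
    change (v, (p 0).2) = p 0
    have h1 : (p 0).1 = v := h.1
    rw [← h1]
  right_inv := by
    rintro ⟨u, ⟨l, h1, h2⟩, ⟨q, h3⟩⟩
    subst h2
    rfl

theorem T_count {V L : Type} [Fintype V] [DecidableEq V] [Fintype L] (P : V → L → Prop) (nx : V → L → V)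
    (M : Matrix V V ℕ) (hM : ∀ v w, M v w = Set.ncard {l : L | P v l ∧ nx v l = w}) (m : ℕ) : ∀ v w : V,
    Nat.card {p : Fin (m + 1) → V × L // T_W P nx m v w p} = (M ^ (m + 1)) v w := by
  have hM' : ∀ v w, M v w = Nat.card {l : L // P v l ∧ nx v l = w} := by
    intro v w
    rw [hM v w]
    exact (Nat.card_coe_set_eq _).symm
  induction m with
  | zero =>
    intro v w
    have e1 : M ^ (0 + 1) = M := by simp
    rw [e1, hM' v w]
    refine Nat.card_congr ⟨fun p => ⟨(p.1 0).2, ?_⟩, fun l => ⟨fun _ => (v, l.1), ?_⟩, ?_, ?_⟩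
    · have h := p.2
      have h1 : (p.1 0).1 = v := h.1
      have h2 : P (p.1 0).1 (p.1 0).2 := h.2.1
      have h3 : nx (p.1 0).1 (p.1 0).2 = w := h.2.2
      rw [h1] at h2 h3
      exact ⟨h2, h3⟩
    · exact ⟨rfl, l.2.1, l.2.2⟩
    · rintro ⟨p, h⟩
      apply Subtype.ext
      funext i
      have hi : i = 0 := Subsingleton.elim (α := Fin 1) i 0
      rw [hi]
      change (v, (p 0).2) = p 0
      have h1 : (p 0).1 = v := h.1
      rw [← h1]
    · rintro ⟨l, h⟩
      rfl
  | succ m ih =>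
    intro v w
    rw [Nat.card_congr (T_splitEquiv P nx m v w), Nat.card_sigma, pow_succ', Matrix.mul_apply]
    refine Finset.sum_congr rfl fun u _ => ?_
    rw [Nat.card_prod, ih u w, ← hM' v u]

theorem trace_walks {V L : Type} [Fintype V] [DecidableEq V] [Fintype L] (P : V → L → Prop) (nx : V → L → V)
    (M : Matrix V V ℕ) (hM : ∀ v w, M v w = Set.ncard {l : L | P v l ∧ nx v l = w}) (d : ℕ) (hd : 1 ≤ d) :
    Set.ncard {p : ZMod d → V × L | ∀ i, P (p i).1 (p i).2 ∧ nx (p i).1 (p i).2 = (p (i + 1)).1} = (M ^ d).trace := by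
  obtain ⟨m, rfl⟩ : ∃ m, d = m + 1 := ⟨d - 1, by omega⟩
  change Set.ncard {p : Fin (m + 1) → V × L | ∀ i : Fin (m + 1), P (p i).1 (p i).2 ∧
    nx (p i).1 (p i).2 = (p (i + 1)).1} = (M ^ (m + 1)).trace
  rw [← Nat.card_coe_set_eq, Matrix.trace]
  have key : ∀ p : Fin (m + 1) → V × L, (∀ i : Fin (m + 1), P (p i).1 (p i).2 ∧
      nx (p i).1 (p i).2 = (p (i + 1)).1) ↔ T_W P nx m (p 0).1 (p 0).1 p := by
    intro p
    rw [T_W_iff]
    constructor
    · intro h
      refine ⟨rfl, fun i => (h i).1, fun i => ?_, ?_⟩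
      · have h1 := (h i.castSucc).2
        rwa [Fin.coeSucc_eq_succ] at h1
      · have h1 := (h (Fin.last m)).2
        rwa [Fin.last_add_one] at h1
    · rintro ⟨_, h2, h3, h4⟩ i
      refine ⟨h2 i, ?_⟩
      refine Fin.lastCases ?_ (fun j => ?_) i
      · rw [Fin.last_add_one]
        exact h4
      · rw [Fin.coeSucc_eq_succ]
        exact h3 j
  have e : {p : Fin (m + 1) → V × L | ∀ i : Fin (m + 1), P (p i).1 (p i).2 ∧ nx (p i).1 (p i).2 = (p (i + 1)).1} ≃
      (Σ v : V, {p : Fin (m + 1) → V × L // T_W P nx m v v p}) :=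
    { toFun := fun p => ⟨(p.1 0).1, ⟨p.1, (key p.1).1 p.2⟩⟩
      invFun := fun x => ⟨x.2.1, by
        obtain ⟨v, ⟨p, h⟩⟩ := x
        have h1 : (p 0).1 = v := ((T_W_iff P nx m v v p).1 h).1
        subst h1
        exact (key p).2 h⟩
      left_inv := fun p => rfl
      right_inv := by
        rintro ⟨v, ⟨p, h⟩⟩
        have h1 : (p 0).1 = v := ((T_W_iff P nx m v v p).1 h).1
        subst h1
        rfl }
  rw [Nat.card_congr e, Nat.card_sigma]
  refine Finset.sum_congr rfl fun v _ => ?_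
  rw [T_count P nx M hM m v v]
  rfl

end Pool.Agent.H85.TM
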