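import Pool.Agent.H85.TM.B4
import Pool.Agent.H85.TM.T
import Pool.Agent.H63.CY.WKB

/-!
# Local structures and closed walks of the transfer graph on binary words
-/

set_option autoImplicit false

open Finset

noncomputable section

namespace Pool.Agent.H85.TM

open Pool.Agent.H63.CY

/-- the marked positions are the last `b` ones of the word, for some `b` -/
def Marks {n : ℕ} (w a : Fin n → Bool) : Prop := ∀ k, a k = true → w k = true ∧ ∀ l, l < k → w l = true → a l = true

/-- the extended word -/
def ext {n : ℕ} (w a : Fin n → Bool) : Fin (n + 1) → Bool :=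
  if ∀ k, a k = false then Fin.cons true w else Fin.cons false a

open Classical in
/-- the next word -/
def next {n : ℕ} (w a : Fin n → Bool) : Fin n → Bool :=
  if ∃ l k : Fin n, l < k ∧ ext w a k.castSucc = true ∧ ext w a l.castSucc = false then (fun k => ext w a k.castSucc) else fun _ => true

/-- the transfer matrix -/
def B (n : ℕ) : Matrix (Fin n → Bool) (Fin n → Bool) ℕ := fun w w' => Set.ncard {a : Fin n → Bool | Marks w a ∧ next w a = w'}

/-- a word as a predicate -/
def up {n : ℕ} (w : Fin n → Bool) (k : ℕ) : Prop := ∃ h : k < n, w ⟨k, h⟩ = true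

open Classical in
/-- a predicate as a word -/
def dn (n : ℕ) (W : ℕ → Prop) : Fin n → Bool := fun k => decide (W k)

variable {n d : ℕ}

theorem up_dn {W : ℕ → Prop} (h : ∀ k, W k → k < n) : up (dn n W) = W := by
  funext k
  simp only [up, dn, decide_eq_true_eq, eq_iff_iff, exists_prop]
  exact ⟨fun h1 => h1.2, fun h1 => ⟨h k h1, h1⟩⟩

theorem dn_up (w : Fin n → Bool) : dn n (up w) = w := by
  classical
  funext k
  simp only [up, dn]
  rcases h : w k with _ | _
  · simp [h]
  · simp [h]

theorem up_none (a : Fin n → Bool) : (∀ k, ¬ up a k) ↔ ∀ k, a k = false := by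
  constructor
  · intro h k
    have h1 := h k
    simp only [up, not_exists, Bool.not_eq_true] at h1
    exact h1 k.2
  · rintro h k ⟨h1, h2⟩
    rw [h] at h2
    exact absurd h2 (by simp)

theorem X_up (w a : Fin n → Bool) (k : ℕ) (hk : k < n + 1) : X (up w) (up a) k ↔ ext w a ⟨k, hk⟩ = true := by
  unfold ext
  by_cases h : ∀ k, a k = false
  · rw [if_pos h]
    have h' := (up_none a).2 h
    rcases k with _ | k
    · show (∀ k, ¬ up a k) ↔ _
      exact ⟨fun _ => rfl, fun _ => h'⟩
    · show (((∀ i, ¬ up a i) ∧ up w k) ∨ up a k) ↔ _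
      have e : (⟨k + 1, hk⟩ : Fin (n + 1)) = Fin.succ ⟨k, by omega⟩ := rfl
      rw [e, Fin.cons_succ]
      constructor
      · rintro (⟨_, h1, h2⟩ | h1)
        · exact h2
        · exact (h' _ h1).elim
      · intro h1
        exact Or.inl ⟨h', by omega, h1⟩
  · rw [if_neg h]
    have h' : ¬ ∀ k, ¬ up a k := fun h1 => h ((up_none a).1 h1)
    rcases k with _ | k
    · show (∀ k, ¬ up a k) ↔ _
      constructor
      · intro h1
        exact (h' h1).elim
      · intro h1
        have e : (⟨0, hk⟩ : Fin (n + 1)) = 0 := rfl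
        rw [e, Fin.cons_zero] at h1
        exact absurd h1 (by simp)
    · show (((∀ i, ¬ up a i) ∧ up w k) ∨ up a k) ↔ _
      have e : (⟨k + 1, hk⟩ : Fin (n + 1)) = Fin.succ ⟨k, by omega⟩ := rfl
      rw [e, Fin.cons_succ]
      constructor
      · rintro (⟨h0, _⟩ | ⟨h1, h2⟩)
        · exact (h' h0).elim
        · exact h2
      · intro h1
        exact Or.inr ⟨by omega, h1⟩

theorem NS_up (w a : Fin n → Bool) : NS n (X (up w) (up a)) ↔
    ∃ l k : Fin n, l < k ∧ ext w a k.castSucc = true ∧ ext w a l.castSucc = false := by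
  constructor
  · rintro ⟨l, k, h1, h2, h3, h4⟩
    rw [X_up w a k (by omega)] at h3
    rw [X_up w a l (by omega), Bool.not_eq_true] at h4
    exact ⟨⟨l, by omega⟩, ⟨k, h2⟩, h1, h3, h4⟩
  · rintro ⟨l, k, h1, h3, h4⟩
    refine ⟨l, k, h1, k.2, ?_, ?_⟩
    · rw [X_up w a k (by omega)]
      exact h3
    · rw [X_up w a l (by omega), Bool.not_eq_true]
      exact h4

theorem run_up (p : ZMod d → (Fin n → Bool) × (Fin n → Bool)) :
    Run n (fun t => up (p t).1) (fun t => up (p t).2) ↔ ∀ i, Marks (p i).1 (p i).2 ∧ next (p i).1 (p i).2 = (p (i + 1)).1 := by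
  constructor
  · intro h i
    constructor
    · intro k hk
      have h1 := h.ini i k ⟨k.2, hk⟩
      refine ⟨h1.1.2, fun l hl hw => ?_⟩
      exact (h1.2 l hl ⟨l.2, hw⟩).2
    · unfold next
      by_cases hc : ∃ l k : Fin n, l < k ∧ ext (p i).1 (p i).2 k.castSucc = true ∧ ext (p i).1 (p i).2 l.castSucc = false
      · rw [if_pos hc]
        have h1 := h.hN i ((NS_up _ _).2 hc)
        funext k
        have h2 := h1 k k.2
        rw [X_up _ _ k (by omega)] at h2
        rw [Bool.eq_iff_iff]
        constructor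
        · intro h3
          exact (h2.2 h3).2
        · intro h3
          exact h2.1 ⟨k.2, h3⟩
      · rw [if_neg hc]
        have h1 := h.hS i (fun h2 => hc ((NS_up _ _).1 h2))
        funext k
        exact (h1 k k.2).2.symm
  · intro h
    refine ⟨fun t k hk => hk.1, fun t k hk => hk.1, ?_, ?_, ?_⟩
    · rintro t k ⟨hk, h1⟩
      have h2 := (h t).1 ⟨k, hk⟩ h1
      refine ⟨⟨hk, h2.1⟩, ?_⟩
      rintro l hl ⟨hl', h3⟩
      exact ⟨hl', h2.2 ⟨l, hl'⟩ hl h3⟩
    · intro t hns k hk
      have h1 := (h t).2
      unfold next at h1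
      rw [if_pos ((NS_up _ _).1 hns)] at h1
      rw [X_up _ _ k (by omega)]
      show up (p (t + 1)).1 k ↔ _
      rw [← h1]
      exact ⟨fun h2 => h2.2, fun h2 => ⟨hk, h2⟩⟩
    · intro t hns k hk
      have h1 := (h t).2
      unfold next at h1
      rw [if_neg (fun h2 => hns ((NS_up _ _).2 h2))] at h1
      show up (p (t + 1)).1 k
      rw [← h1]
      exact ⟨hk, rfl⟩

theorem LS_walks (n d : ℕ) : (LS n d).ncard = Set.ncard {p : ZMod d → (Fin n → Bool) × (Fin n → Bool) |
    ∀ i, Marks (p i).1 (p i).2 ∧ next (p i).1 (p i).2 = (p (i + 1)).1} := by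
  refine Set.ncard_congr (fun D _ t => (dn n (wD n D t), dn n (aD n D t))) ?_ ?_ ?_
  · intro D hD
    show ∀ i, _
    rw [← run_up]
    have e1 : (fun t : ZMod d => up (dn n (wD n D t))) = wD n D := by
      funext t
      exact up_dn fun k hk => hk.1
    have e2 : (fun t : ZMod d => up (dn n (aD n D t))) = aD n D := by
      funext t
      exact up_dn fun k hk => hk.1
    show Run n (fun t : ZMod d => up (dn n (wD n D t))) (fun t : ZMod d => up (dn n (aD n D t)))
    rw [e1, e2]
    exact run_of_LS hD
  · intro D D' hD hD' h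
    have h1 : ∀ t, aD n D t = aD n D' t := by
      intro t
      have h2 := congrArg Prod.snd (congrFun h t)
      have h3 := congrArg up h2
      have e1 : up (dn n (aD n D t)) = aD n D t := up_dn fun k hk => hk.1
      have e2 : up (dn n (aD n D' t)) = aD n D' t := up_dn fun k hk => hk.1
      exact e1.symm.trans (h3.trans e2)
    have h4 : ∀ (D D' : ZMod d → ℕ → Prop), D ∈ LS n d → (∀ t, aD n D t = aD n D' t) → ∀ i m, D i m → D' i m := by
      intro D D' hD h1 i m hm
      have h2 := LS_pos hD hm
      have h3 : aD n D (i + ((m - 1 : ℕ) : ZMod d)) (m - 1) := by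
        refine ⟨by omega, ?_⟩
        rw [show m - 1 + 1 = m by omega, add_sub_cancel_right]
        exact hm
      rw [h1] at h3
      have h4 := h3.2
      rw [show m - 1 + 1 = m by omega, add_sub_cancel_right] at h4
      exact h4
    funext i m
    exact propext ⟨h4 D D' hD h1 i m, h4 D' D hD' (fun t => (h1 t).symm) i m⟩
  · intro p hp
    have h1 := (run_up p).2 hp
    refine ⟨DA n (fun t => up (p t).2), DA_mem h1, ?_⟩
    funext t
    have e1 : wD n (DA n (fun t => up (p t).2)) t = up (p t).1 := by
      funext k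
      exact propext (wD_DA h1 t k)
    have e2 : aD n (DA n (fun t => up (p t).2)) t = up (p t).2 := by
      funext k
      exact propext (aD_DA h1 t k)
    show (dn n (wD n (DA n (fun t => up (p t).2)) t), dn n (aD n (DA n (fun t => up (p t).2)) t)) = p t
    rw [e1, e2, dn_up, dn_up]

theorem W_trace (n d : ℕ) (hd : 1 ≤ d) : Pool.Agent.H63.CY.W n d = (B n ^ d).trace := by
  classical
  rw [W_eq, LS_walks]
  exact trace_walks (fun w a => Marks w a) (fun w a => next w a) (B n) (fun v w => rfl) d hd

end Pool.Agent.H85.TM
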