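import Pool.Agent.H85.TM.C

/-!
# The transfer graph on the `2^n - n` relevant words
-/

set_option autoImplicit false

open Finset

noncomputable section

namespace Pool.Agent.H85.TM

/-- some `true` has a `false` after it (at a smaller lag), or all letters are `true` -/
def Rel {n : ℕ} (w : Fin n → Bool) : Prop := (∀ k, w k = true) ∨ ∃ l k, l < k ∧ w k = true ∧ w l = false

/-- relevant words -/
abbrev RW (n : ℕ) := {w : Fin n → Bool // Rel w}

open Classical in
instance (n : ℕ) : Fintype (RW n) := Subtype.fintype _

open Classical in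
/-- the relevant word of a word -/
def fill {n : ℕ} (u : Fin n → Bool) : RW n := if h : Rel u then ⟨u, h⟩ else ⟨fun _ => true, Or.inl fun _ => rfl⟩

/-- the transfer matrix on the relevant words -/
def B' (n : ℕ) : Matrix (RW n) (RW n) ℕ := fun w w' =>
  Set.ncard {a : Fin n → Bool | Marks w.1 a ∧ fill (fun k => ext w.1 a k.castSucc) = w'}

variable {n d : ℕ}

theorem fill_next (w a : Fin n → Bool) : (fill (fun k => ext w a k.castSucc)).1 = next w a := by
  unfold fill next
  by_cases hc : ∃ l k : Fin n, l < k ∧ ext w a k.castSucc = true ∧ ext w a l.castSucc = false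
  · rw [if_pos hc, dif_pos (show Rel (fun k : Fin n => ext w a k.castSucc) from Or.inr hc)]
  · rw [if_neg hc]
    by_cases h : Rel (fun k : Fin n => ext w a k.castSucc)
    · rw [dif_pos h]
      rcases h with h | h
      · funext k
        exact h k
      · exact (hc h).elim
    · rw [dif_neg h]

theorem walks_rel (n d : ℕ) : Set.ncard {p : ZMod d → (Fin n → Bool) × (Fin n → Bool) |
      ∀ i, Marks (p i).1 (p i).2 ∧ next (p i).1 (p i).2 = (p (i + 1)).1} =
    Set.ncard {p : ZMod d → RW n × (Fin n → Bool) |
      ∀ i, Marks (p i).1.1 (p i).2 ∧ fill (fun k => ext (p i).1.1 (p i).2 k.castSucc) = (p (i + 1)).1} := by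
  symm
  refine Set.ncard_congr (fun p _ t => ((p t).1.1, (p t).2)) ?_ ?_ ?_
  · intro p hp i
    have h := hp i
    refine ⟨h.1, ?_⟩
    show next (p i).1.1 (p i).2 = (p (i + 1)).1.1
    rw [← fill_next, h.2]
  · intro p q _ _ h
    funext t
    have h1 : ((p t).1.1, (p t).2) = ((q t).1.1, (q t).2) := congrFun h t
    have h2 := Prod.mk.inj h1
    exact Prod.ext (Subtype.ext h2.1) h2.2
  · intro p hp
    have hrel : ∀ t, Rel (p t).1 := by
      intro t
      have h := (hp (t - 1)).2
      rw [sub_add_cancel, ← fill_next] at h
      rw [← h]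
      exact (fill (fun k => ext (p (t - 1)).1 (p (t - 1)).2 k.castSucc)).2
    refine ⟨fun t => (⟨(p t).1, hrel t⟩, (p t).2), ?_, rfl⟩
    intro i
    have h := hp i
    refine ⟨h.1, Subtype.ext ?_⟩
    rw [fill_next]
    exact h.2

theorem W_trace' (n d : ℕ) (hd : 1 ≤ d) : Pool.Agent.H63.CY.W n d = (B' n ^ d).trace := by
  classical
  rw [Pool.Agent.H63.CY.W_eq, LS_walks, walks_rel]
  exact trace_walks (fun (w : RW n) a => Marks w.1 a) (fun w a => fill (fun k => ext w.1 a k.castSucc)) (B' n) (fun v w => rfl) d hd

/-- the words that are not relevant: `j < n` letters `true` at the end, `false` before -/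
def bad (n : ℕ) (j : Fin n) : Fin n → Bool := fun k => decide (k < j)

theorem not_rel_iff (w : Fin n → Bool) : ¬ Rel w ↔ ∃ j : Fin n, bad n j = w := by
  constructor
  · intro h
    unfold Rel at h
    push Not at h
    obtain ⟨⟨k0, hk0⟩, h2⟩ := h
    classical
    have hne : (univ.filter fun k : Fin n => w k = false).Nonempty := ⟨k0, by simp only [mem_filter, mem_univ, true_and]; simpa using hk0⟩
    set j := (univ.filter fun k : Fin n => w k = false).min' hne with hj
    have hjm := Finset.min'_mem _ hne
    rw [← hj] at hjm
    simp only [mem_filter, mem_univ, true_and] at hjm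
    refine ⟨j, ?_⟩
    funext k
    unfold bad
    by_cases hk : k < j
    · rw [decide_eq_true hk]
      by_contra hc
      have hc' : w k = false := by
        rcases hw : w k with _ | _
        · rfl
        · exact (hc hw.symm).elim
      have := Finset.min'_le (univ.filter fun k : Fin n => w k = false) k (by simp only [mem_filter, mem_univ, true_and]; exact hc')
      exact absurd hk (not_lt.2 (hj ▸ this))
    · rw [decide_eq_false hk]
      by_contra hc
      have hc' : w k = true := by
        rcases hw : w k with _ | _
        · exact (hc hw.symm).elim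
        · rfl
      have hjk : j < k := by
        refine lt_of_le_of_ne (not_lt.1 hk) ?_
        intro e
        rw [e] at hjm
        rw [hjm] at hc'
        exact absurd hc' (by simp)
      exact h2 j k hjk hc' hjm
  · rintro ⟨j, rfl⟩ h
    rcases h with h | ⟨l, k, h1, h2, h3⟩
    · have := h j
      simp [bad] at this
    · simp only [bad, decide_eq_true_eq, decide_eq_false_iff_not, not_lt] at h2 h3
      exact absurd (h1.trans h2) (not_lt.2 h3)

theorem card_RW (n : ℕ) : Fintype.card (RW n) = 2 ^ n - n := by
  classical
  have hinj : Function.Injective (bad n) := by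
    intro i j h
    by_contra hne
    rcases lt_or_gt_of_ne hne with h1 | h1
    · have := congrFun h i
      simp [bad, h1] at this
    · have := congrFun h j
      simp [bad, h1] at this
  have h1 : Fintype.card {w : Fin n → Bool // ¬ Rel w} = n := by
    have : Fintype.card {w : Fin n → Bool // ¬ Rel w} = Fintype.card (Fin n) := by
      symm
      refine Fintype.card_of_bijective (f := fun j : Fin n => (⟨bad n j, (not_rel_iff _).2 ⟨j, rfl⟩⟩ : {w : Fin n → Bool // ¬ Rel w})) ⟨?_, ?_⟩
      · intro i j h
        exact hinj (congrArg Subtype.val h)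
      · rintro ⟨w, hw⟩
        obtain ⟨j, hj⟩ := (not_rel_iff w).1 hw
        exact ⟨j, Subtype.ext hj⟩
    rw [this, Fintype.card_fin]
  have h2 := Fintype.card_subtype_compl (fun w : Fin n → Bool => Rel w)
  have h3 := Fintype.card_subtype_le (fun w : Fin n → Bool => Rel w)
  have h4 : Fintype.card (Fin n → Bool) = 2 ^ n := by simp
  have h5 : Fintype.card (RW n) = Fintype.card {w : Fin n → Bool // Rel w} := by
    apply Fintype.card_congr'
    rfl
  rw [h5]
  omega

end Pool.Agent.H85.TM
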