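import Pool.Agent.H85.TM.C2

/-!
# The transfer matrix is invertible
-/

set_option autoImplicit false

open Finset

noncomputable section

namespace Pool.Agent.H85.TM

open Classical in
/-- the row sums of a function on the states, for all words -/
def FF {n : ℕ} {F : Type*} [Field F] (v : RW n → F) (w : Fin n → Bool) : F :=
  ∑ a ∈ univ.filter (fun a : Fin n → Bool => Marks w a), v (fill (fun k => ext w a k.castSucc))

theorem mulVec_eq {n : ℕ} {F : Type*} [Field F] (v : RW n → F) (w : RW n) :
    ((B' n).map (Nat.cast : ℕ → F)).mulVec v w = FF v w.1 := by
  classical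
  have h1 : ∀ w', ((B' n).map (Nat.cast : ℕ → F)) w w' * v w' =
      ∑ a ∈ (univ.filter (fun a : Fin n → Bool => Marks w.1 a)).filter (fun a => fill (fun k => ext w.1 a k.castSucc) = w'),
        v (fill (fun k => ext w.1 a k.castSucc)) := by
    intro w'
    have h2 : B' n w w' = ((univ.filter (fun a : Fin n → Bool => Marks w.1 a)).filter
        (fun a => fill (fun k => ext w.1 a k.castSucc) = w')).card := by
      unfold B'
      rw [Set.ncard_eq_toFinset_card']
      congr 1
      ext a
      simp only [Set.mem_toFinset, Set.mem_setOf_eq, mem_filter, mem_univ, true_and]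
    rw [Matrix.map_apply, h2, sum_congr rfl (fun a ha => by rw [(mem_filter.1 ha).2]), sum_const, nsmul_eq_mul]
  show ∑ w', ((B' n).map (Nat.cast : ℕ → F)) w w' * v w' = _
  rw [sum_congr rfl fun w' _ => h1 w']
  unfold FF
  exact sum_fiberwise _ _ _

variable {k : ℕ}

theorem ext_zero (w a : Fin (k + 1) → Bool) (h : ∀ j, a j = false) :
    (fun j : Fin (k + 1) => ext w a j.castSucc) = Fin.cons true (fun i : Fin k => w i.castSucc) := by
  unfold ext
  rw [if_pos h]
  funext j
  refine Fin.cases ?_ (fun i => ?_) j
  · rfl
  · rw [Fin.cons_succ, ← Fin.succ_castSucc, Fin.cons_succ]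

theorem ext_pos (w a : Fin (k + 1) → Bool) (h : ¬ ∀ j, a j = false) :
    (fun j : Fin (k + 1) => ext w a j.castSucc) = Fin.cons false (fun i : Fin k => a i.castSucc) := by
  unfold ext
  rw [if_neg h]
  funext j
  refine Fin.cases ?_ (fun i => ?_) j
  · rfl
  · rw [Fin.cons_succ, ← Fin.succ_castSucc, Fin.cons_succ]

/-- the word with the first letter `c` -/
def sn (u : Fin k → Bool) (c : Bool) : Fin (k + 1) → Bool := Fin.snoc (α := fun _ => Bool) u c

theorem sn_last (u : Fin k → Bool) (c : Bool) : sn u c (Fin.last k) = c := Fin.snoc_last _ _
theorem sn_cast (u : Fin k → Bool) (c : Bool) (i : Fin k) : sn u c i.castSucc = u i := Fin.snoc_castSucc _ _ _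

theorem marks_sn (u : Fin k → Bool) (a : Fin (k + 1) → Bool) :
    Marks (sn u true) a ↔ a = sn u true ∨ Marks (sn u false) a := by
  constructor
  · intro h
    rcases hl : a (Fin.last k) with _ | _
    · right
      intro j
      refine Fin.lastCases (fun hj => ?_) (fun i hi => ?_) j
      · rw [hl] at hj
        exact absurd hj (by simp)
      · have h1 := h i.castSucc hi
        rw [sn_cast] at h1
        refine ⟨by rw [sn_cast]; exact h1.1, fun l => ?_⟩
        refine Fin.lastCases (fun h2 h3 => ?_) (fun l' h2 h3 => ?_) l
        · rw [sn_last] at h3
          exact absurd h3 (by simp)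
        · rw [sn_cast] at h3
          exact h1.2 l'.castSucc h2 (by rw [sn_cast]; exact h3)
    · left
      have h1 := h (Fin.last k) hl
      funext j
      refine Fin.lastCases ?_ (fun i => ?_) j
      · rw [hl, sn_last]
      · rcases ha : a i.castSucc with _ | _
        · rcases hw : sn u true i.castSucc with _ | _
          · rfl
          · have := h1.2 i.castSucc (Fin.castSucc_lt_last i) hw
            rw [ha] at this
            exact this
        · exact (h i.castSucc ha).1.symm
  · rintro (h | h)
    · subst h
      exact fun j hj => ⟨hj, fun l _ hl => hl⟩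
    · intro j
      refine Fin.lastCases (fun hj => ?_) (fun i hi => ?_) j
      · have h1 := (h (Fin.last k) hj).1
        rw [sn_last] at h1
        exact absurd h1 (by simp)
      · have h1 := h i.castSucc hi
        rw [sn_cast] at h1
        refine ⟨by rw [sn_cast]; exact h1.1, fun l => ?_⟩
        refine Fin.lastCases (fun h2 h3 => ?_) (fun l' h2 h3 => ?_) l
        · exact absurd h2 (not_lt.2 (Fin.le_last _))
        · rw [sn_cast] at h3
          exact h1.2 l'.castSucc h2 (by rw [sn_cast]; exact h3)

theorem marks_sn_last {u : Fin k → Bool} {a : Fin (k + 1) → Bool} (h : Marks (sn u false) a) : a (Fin.last k) = false := by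
  rcases hl : a (Fin.last k) with _ | _
  · rfl
  · have h1 := (h (Fin.last k) hl).1
    rw [sn_last] at h1
    exact absurd h1 (by simp)

theorem FF_sn {F : Type*} [Field F] (v : RW (k + 1) → F) (u : Fin k → Bool) :
    FF v (sn u true) = FF v (sn u false) + v (fill (Fin.cons false u)) := by
  classical
  unfold FF
  have h1 : univ.filter (fun a : Fin (k + 1) → Bool => Marks (sn u true) a) =
      insert (sn u true) (univ.filter (fun a : Fin (k + 1) → Bool => Marks (sn u false) a)) := by
    ext a
    rw [mem_filter, mem_insert, mem_filter, marks_sn]
    simp only [mem_univ, true_and]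
  have h2 : sn u true ∉ univ.filter (fun a : Fin (k + 1) → Bool => Marks (sn u false) a) := by
    rw [mem_filter]
    rintro ⟨_, h3⟩
    have := marks_sn_last h3
    rw [sn_last] at this
    exact absurd this (by simp)
  rw [h1, sum_insert h2, add_comm]
  congr 1
  · refine sum_congr rfl fun a _ => ?_
    congr 2
    by_cases h : ∀ j, a j = false
    · rw [ext_zero _ _ h, ext_zero _ _ h]
      congr 1
      funext i
      rw [sn_cast, sn_cast]
    · rw [ext_pos _ _ h, ext_pos _ _ h]
  · congr 2
    rw [ext_pos _ _ (fun h => by have := h (Fin.last k); rw [sn_last] at this; exact absurd this (by simp))]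
    congr 1
    funext i
    rw [sn_cast]

/-- number of letters `true` -/
def ones {n : ℕ} (u : Fin n → Bool) : ℕ := (univ.filter fun i => u i = true).card

theorem rel_sn_true (u : Fin k → Bool) : Rel (sn u true) := by
  by_cases h : ∀ i, u i = true
  · left
    intro j
    refine Fin.lastCases ?_ (fun i => ?_) j
    · rw [sn_last]
    · rw [sn_cast]
      exact h i
  · push Not at h
    obtain ⟨l, hl⟩ := h
    right
    exact ⟨l.castSucc, Fin.last k, Fin.castSucc_lt_last l, sn_last _ _, by rw [sn_cast]; simpa using hl⟩

/-- the word of `true`s -/
def full (n : ℕ) : RW n := ⟨fun _ => true, Or.inl fun _ => rfl⟩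

theorem fill_of_not_tf {n : ℕ} {u : Fin n → Bool} (h : ∀ l j, l < j → u j = true → u l = true) : fill u = full n := by
  classical
  unfold fill
  by_cases hr : Rel u
  · rw [dif_pos hr]
    rcases hr with h1 | ⟨l, j, h1, h2, h3⟩
    · apply Subtype.ext
      funext j
      exact h1 j
    · have := h l j h1 h2
      rw [h3] at this
      exact absurd this (by simp)
  · rw [dif_neg hr]
    rfl

theorem fill_state {n : ℕ} (s : RW n) : fill s.1 = s := by
  unfold fill
  rw [dif_pos s.2]

theorem fill_zero : fill (Fin.cons false (fun _ : Fin k => false) : Fin (k + 1) → Bool) = full (k + 1) := by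
  apply fill_of_not_tf
  intro l j _ hj
  exfalso
  revert hj
  refine Fin.cases ?_ (fun i => ?_) j
  · rw [Fin.cons_zero]; simp
  · rw [Fin.cons_succ]; simp

theorem ker_false {F : Type*} [Field F] [CharZero F] (v : RW (k + 1) → F) (hv : ∀ w, Rel w → FF v w = 0) (N : ℕ) :
    ∀ u : Fin k → Bool, ones u = N → v (fill (Fin.cons false u)) = 0 := by
  classical
  induction N using Nat.strong_induction_on with
  | _ N ih =>
    intro u hu
    have h1 := hv _ (rel_sn_true u)
    rw [FF_sn] at h1
    set y := v (fill (Fin.cons false u)) with hy
    by_cases hR : Rel (sn u false)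
    · rw [hv _ hR, zero_add] at h1
      exact h1
    · have hsort : ∀ l j, l < j → u j = true → u l = true := by
        intro l j hlj hj
        by_contra hc
        exact hR (Or.inr ⟨l.castSucc, j.castSucc, hlj, by rw [sn_cast]; exact hj, by rw [sn_cast]; simpa using hc⟩)
      have hfull : fill (Fin.cons true u : Fin (k + 1) → Bool) = full (k + 1) := by
        apply fill_of_not_tf
        intro l
        refine Fin.cases (fun j _ _ => rfl) (fun l' j => ?_) l
        refine Fin.cases (fun h2 _ => absurd h2 (by simp)) (fun j' h2 h3 => ?_) j
        rw [Fin.cons_succ] at h3 ⊢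
        exact hsort l' j' (Fin.succ_lt_succ_iff.1 h2) h3
      by_cases h0 : ∀ i, u i = false
      · have e0 : u = fun _ => false := funext h0
        have h2 : FF v (sn u false) = y := by
          unfold FF
          have h3 : univ.filter (fun a : Fin (k + 1) → Bool => Marks (sn u false) a) = {fun _ => false} := by
            ext a
            rw [mem_filter, mem_singleton]
            constructor
            · rintro ⟨_, h4⟩
              funext j
              rcases ha : a j with _ | _
              · rfl
              · exfalso
                have h5 := (h4 j ha).1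
                revert h5
                refine Fin.lastCases ?_ (fun i => ?_) j
                · rw [sn_last]; simp
                · rw [sn_cast, h0]; simp
            · rintro rfl
              exact ⟨mem_univ _, fun j hj => absurd hj (by simp)⟩
          rw [h3, sum_singleton, ext_zero _ _ (fun _ => rfl), hy]
          congr 1
          have h4 : (fun i : Fin k => sn u false i.castSucc) = u := by
            funext i
            rw [sn_cast]
          rw [h4, hfull, e0, fill_zero]
        rw [h2] at h1
        have h3 : (2 : F) * y = 0 := by rw [two_mul]; exact h1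
        rcases mul_eq_zero.1 h3 with h4 | h4
        · exact absurd h4 two_ne_zero
        · exact h4
      · have hpos : 0 < N := by
          rw [← hu]
          unfold ones
          rw [card_pos]
          by_contra hc
          rw [not_nonempty_iff_eq_empty] at hc
          refine h0 fun i => ?_
          rcases hi : u i with _ | _
          · rfl
          · have : i ∈ univ.filter fun i => u i = true := by rw [mem_filter]; exact ⟨mem_univ _, hi⟩
            rw [hc] at this
            exact absurd this (notMem_empty i)
        have hx : v (full (k + 1)) = 0 := by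
          have h2 := ih 0 hpos (fun _ => false) (by unfold ones; simp)
          rw [fill_zero] at h2
          exact h2
        have h2 : FF v (sn u false) = y := by
          unfold FF
          have hne : (fun _ => false : Fin (k + 1) → Bool) ≠ sn u false := by
            intro h3
            refine h0 fun i => ?_
            have := congrFun h3 i.castSucc
            rw [sn_cast] at this
            exact this.symm
          rw [sum_eq_add (fun _ => false : Fin (k + 1) → Bool) (sn u false) hne]
          · rw [ext_zero _ _ (fun _ => rfl), ext_pos _ _ (fun h3 => h0 fun i => by have := h3 i.castSucc; rwa [sn_cast] at this)]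
            have h4 : (fun i : Fin k => sn u false i.castSucc) = u := by
              funext i
              rw [sn_cast]
            rw [h4, hfull, hx, zero_add]
          · intro a ha hne'
            rw [mem_filter] at ha
            have hal := marks_sn_last ha.2
            have hnz : ¬ ∀ j, a j = false := fun h3 => hne'.1 (funext h3)
            rw [ext_pos _ _ hnz]
            refine ih (ones fun i : Fin k => a i.castSucc) ?_ _ rfl
            rw [← hu]
            unfold ones
            apply card_lt_card
            rw [ssubset_iff_subset_ne]
            constructor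
            · intro i hi
              rw [mem_filter] at hi ⊢
              have h3 := (ha.2 i.castSucc hi.2).1
              rw [sn_cast] at h3
              exact ⟨mem_univ _, h3⟩
            · intro h3
              apply hne'.2
              funext j
              refine Fin.lastCases ?_ (fun i => ?_) j
              · rw [hal, sn_last]
              · rw [sn_cast]
                have h4 : (i ∈ univ.filter fun i : Fin k => a i.castSucc = true) ↔ (i ∈ univ.filter fun i => u i = true) := by
                  rw [h3]
                rw [mem_filter, mem_filter] at h4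
                simp only [mem_univ, true_and] at h4
                exact Bool.eq_iff_iff.2 h4
          · intro h3
            exfalso
            apply h3
            rw [mem_filter]
            exact ⟨mem_univ _, fun j hj => absurd hj (by simp)⟩
          · intro h3
            exfalso
            apply h3
            rw [mem_filter]
            exact ⟨mem_univ _, fun j hj => ⟨hj, fun l _ hl => hl⟩⟩
        rw [h2] at h1
        have h3 : (2 : F) * y = 0 := by rw [two_mul]; exact h1
        rcases mul_eq_zero.1 h3 with h4 | h4
        · exact absurd h4 two_ne_zero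
        · exact h4

theorem ker_all {F : Type*} [Field F] [CharZero F] (v : RW (k + 1) → F) (hv : ∀ w, Rel w → FF v w = 0) : v = 0 := by
  classical
  have hF : ∀ u : Fin k → Bool, v (fill (Fin.cons false u)) = 0 := fun u => ker_false v hv _ u rfl
  funext s
  show v s = 0
  rcases h0 : s.1 0 with _ | _
  · have h1 : s.1 = Fin.cons false (fun i : Fin k => s.1 i.succ) := by
      funext j
      refine Fin.cases ?_ (fun i => ?_) j
      · rw [h0, Fin.cons_zero]
      · rw [Fin.cons_succ]
    rw [← fill_state s, h1]
    exact hF _
  · by_cases hall : ∀ j, s.1 j = true
    · have h1 : s = full (k + 1) := Subtype.ext (funext hall)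
      rw [h1, ← fill_zero]
      exact hF _
    · rcases s.2 with h1 | ⟨l, j, h1, h2, h3⟩
      · exact (hall h1).elim
      · set u : Fin k → Bool := fun i => s.1 i.succ with hu
        have hl : l ≠ 0 := by
          rintro rfl
          rw [h0] at h3
          exact absurd h3 (by simp)
        have hj : j ≠ 0 := by
          rintro rfl
          exact absurd h1 (by simp)
        obtain ⟨l', rfl⟩ := Fin.exists_succ_eq.2 hl
        obtain ⟨j', rfl⟩ := Fin.exists_succ_eq.2 hj
        have hR : Rel (sn u false) := by
          right
          refine ⟨l'.castSucc, j'.castSucc, ?_, ?_, ?_⟩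
          · exact Fin.castSucc_lt_castSucc_iff.2 (Fin.succ_lt_succ_iff.1 h1)
          · rw [sn_cast]
            exact h2
          · rw [sn_cast]
            exact h3
        have h4 := hv _ hR
        unfold FF at h4
        rw [sum_eq_single_of_mem (fun _ => false : Fin (k + 1) → Bool)] at h4
        · rw [ext_zero _ _ (fun _ => rfl)] at h4
          have h5 : (Fin.cons true (fun i : Fin k => sn u false i.castSucc) : Fin (k + 1) → Bool) = s.1 := by
            funext j
            refine Fin.cases ?_ (fun i => ?_) j
            · rw [Fin.cons_zero, h0]
            · rw [Fin.cons_succ, sn_cast]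
          rw [h5, fill_state] at h4
          exact h4
        · rw [mem_filter]
          exact ⟨mem_univ _, fun j hj => absurd hj (by simp)⟩
        · intro a ha hne
          rw [ext_pos _ _ (fun h5 => hne (funext h5))]
          exact hF _

theorem det_ne_zero (n : ℕ) (hn : 1 ≤ n) (F : Type*) [Field F] [CharZero F] : ((B' n).map (Nat.cast : ℕ → F)).det ≠ 0 := by
  obtain ⟨k, rfl⟩ : ∃ k, n = k + 1 := ⟨n - 1, by omega⟩
  intro h
  obtain ⟨v, hv0, hv⟩ := Matrix.exists_mulVec_eq_zero_iff.2 h
  apply hv0
  apply ker_all
  intro w hw
  rw [← mulVec_eq v ⟨w, hw⟩, hv]
  rfl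

end Pool.Agent.H85.TM
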