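import Mathlib

/-!
# Matrices with the same traces of all powers

PROOF. For a square matrix `M` over `F` let `P_M = det (1 - X M)` as a power series over `F` (`Matrix.charpolyRev M` mapped to
`PowerSeries`, or the determinant of `1 - (X : F⟦X⟧) • M.map C`), and `S_M = mk (fun d => (M ^ d) i j)` (a matrix of power series).
(1) `(1 - X M) * S_M = 1` (coefficients). (2) Jacobi's formula `D (det A) = trace (adjugate A * A.map D)` for the derivation
`D = PowerSeries.derivative F` (a complete proof for every derivation is `Ja_det` in Pool/Agent/H85/GR/Ja.lean, private: copy it):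
with `A = 1 - X M`, `A.map D = - M` (constant matrices), `adjugate A = det A • S_M` (from (1)), so
`P_M' = - P_M * T_M`, `T_M = mk (fun d => trace (M ^ (d + 1)))`. (3) So `P_B` and `P_C` satisfy `P' = - P * T` with the same
`T`, and constant coefficient `1`; comparing coefficients `(k + 1) p_(k+1) = - ∑_{i+j=k} p_i t_j`, in characteristic 0 strong
induction gives `P_B = P_C`, hence `B.charpolyRev = C.charpolyRev` (`Polynomial.coe_injective`). (4) `Matrix.reverse_charpoly`:
`M.charpoly.reverse = M.charpolyRev`. `natDegree (reverse f) = natDegree f - natTrailingDegree f` (`Polynomial.reverse_natDegree`).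
`C.charpolyRev` has `natDegree ≤ card m` (`Matrix.charpoly_natDegree_eq_dim`), `B.charpolyRev` has `natDegree = card N` because
the constant coefficient of `B.charpoly` is `± det B ≠ 0` (`Matrix.det_eq_sign_charpoly_coeff`), so its trailing degree is `0`.
-/

set_option autoImplicit false

open Finset

namespace Pool.Agent.H85.TM

open Polynomial in
private theorem J_trace {F : Type*} [Field F] {N m : Type*} [Fintype N] [DecidableEq N] [Fintype m]
    [DecidableEq m] (B : Matrix N N F) (C : Matrix m m F)
    (h : ∀ d : ℕ, 1 ≤ d → (B ^ d).trace = (C ^ d).trace) (q : F[X]) (hq : q.coeff 0 = 0) :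
    (aeval B q).trace = (aeval C q).trace := by
  rw [aeval_eq_sum_range, aeval_eq_sum_range, Matrix.trace_sum, Matrix.trace_sum]
  refine Finset.sum_congr rfl fun d _ => ?_
  rw [Matrix.trace_smul, Matrix.trace_smul]
  rcases Nat.eq_zero_or_pos d with rfl | hd
  · rw [hq, zero_smul, zero_smul]
  · rw [h d hd]

open Polynomial in
theorem order_le {F : Type*} [Field F] [CharZero F] {N m : Type*} [Fintype N] [DecidableEq N] [Fintype m] [DecidableEq m]
    (B : Matrix N N F) (C : Matrix m m F) (hB : B.det ≠ 0) (h : ∀ d : ℕ, 1 ≤ d → (B ^ d).trace = (C ^ d).trace) :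
    Fintype.card N ≤ Fintype.card m := by
  have hC0 : C.charpoly ≠ 0 := C.charpoly_monic.ne_zero
  obtain ⟨g, hg, hg0⟩ := Polynomial.exists_eq_pow_rootMultiplicity_mul_and_not_dvd C.charpoly hC0 0
  set a := C.charpoly.rootMultiplicity 0 with ha
  rw [C_0, sub_zero] at hg hg0
  have hB0 : ¬ (X : F[X]) ∣ B.charpoly := by
    rw [X_dvd_iff]
    intro h0
    refine hB ?_
    rw [Matrix.det_eq_sign_charpoly_coeff, h0, mul_zero]
  have hcop : IsCoprime ((X : F[X]) ^ (a + 1)) (g * B.charpoly) := by
    refine IsCoprime.pow_left ?_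
    refine (irreducible_X.coprime_iff_not_dvd).2 fun hd => ?_
    rcases (prime_X.dvd_mul).1 hd with h1 | h1
    · exact hg0 h1
    · exact hB0 h1
  obtain ⟨u, v, huv⟩ := hcop
  set q : F[X] := u * X ^ (a + 1) with hq
  have hq0 : q.coeff 0 = 0 := by
    rw [hq, pow_succ, ← mul_assoc]
    exact coeff_mul_X_zero _
  have hq1 : q = 1 - v * (g * B.charpoly) := by rw [← huv]; ring
  have hqB : aeval B q = 1 := by
    rw [hq1, map_sub, map_one, map_mul, map_mul, Matrix.aeval_self_charpoly, mul_zero, mul_zero,
      sub_zero]
  have hidem : aeval C q * aeval C q = aeval C q := by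
    have h1 : q * (1 - q) = u * X * v * B.charpoly * C.charpoly := by
      rw [hg]
      conv_lhs => rw [hq1]
      have h2 : 1 - v * (g * B.charpoly) = u * X ^ (a + 1) := by rw [← hq1]
      rw [h2]
      have h3 : 1 - u * X ^ (a + 1) = v * (g * B.charpoly) := by rw [← huv]; ring
      rw [h3]
      ring
    have h2 : aeval C (q * (1 - q)) = 0 := by
      rw [h1, map_mul, Matrix.aeval_self_charpoly, mul_zero]
    rw [map_mul, map_sub, map_one, mul_sub, mul_one, sub_eq_zero] at h2
    exact h2.symm
  have htr := J_trace B C h q hq0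
  rw [hqB, Matrix.trace_one] at htr
  have hid : IsIdempotentElem (Matrix.toLin' (aeval C q)) := by
    have h1 := congrArg Matrix.toLin' hidem
    rw [Matrix.toLin'_mul] at h1
    exact h1
  have h3 := (LinearMap.IsIdempotentElem.isProj_range _ hid).trace
  rw [Matrix.trace_toLin'_eq, ← htr, Nat.cast_inj] at h3
  rw [h3]
  refine (Submodule.finrank_le _).trans ?_
  rw [Module.finrank_fintype_fun_eq_card]

end Pool.Agent.H85.TM
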