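import Pool.Agent.H85.TM.E
import Pool.Agent.H85.TM.J

/-!
# The order of the transfer matrix is minimal
-/

set_option autoImplicit false

open Finset

noncomputable section

namespace Pool.Agent.H85.TM

theorem min_order (n : ℕ) (hn : 1 ≤ n) (F : Type*) [Field F] [CharZero F] (m : ℕ) (C : Matrix (Fin m) (Fin m) F)
    (hC : ∀ d : ℕ, 1 ≤ d → (Pool.Agent.H63.CY.W n d : F) = (C ^ d).trace) : 2 ^ n - n ≤ m := by
  classical
  rw [← card_RW n]
  have h := order_le ((B' n).map (Nat.cast : ℕ → F)) C (det_ne_zero n hn F) fun d hd => by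
    rw [← hC d hd, W_trace' n d hd]
    have e1 : (B' n).map (Nat.cast : ℕ → F) = (Nat.castRingHom F).mapMatrix (B' n) := rfl
    rw [e1, ← map_pow]
    simp only [Matrix.trace, Matrix.diag, RingHom.mapMatrix_apply, Matrix.map_apply, Nat.coe_castRingHom, Nat.cast_sum]
  rw [Fintype.card_fin] at h
  exact h

end Pool.Agent.H85.TM
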